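import Mathlib
import Pool.Agent.H26.Fonf

set_option autoImplicit false

open Filter Topology Finset
open scoped ENNReal

namespace Pool.Agent.Results.MP_441f99_an.Proof

noncomputable def nF (F : Set (Finset ℕ)) (x : ℕ → ℝ) : ℝ≥0∞ :=
  ⨆ E ∈ F, ENNReal.ofReal (∑ k ∈ E, |x k|)

def Hered (F : Set (Finset ℕ)) : Prop := (∀ E ∈ F, ∀ E' ⊆ E, E' ∈ F) ∧ ∀ k, {k} ∈ F

def Clo (F : Set (Finset ℕ)) : Set (Set ℕ) := {A | ∀ E : Finset ℕ, ↑E ⊆ A → E ∈ F}

def Block (F : Set (Finset ℕ)) (x : ℕ → ℕ →₀ ℝ) : Prop :=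
  (∀ n, ∀ i ∈ (x n).support, ∀ j ∈ (x (n + 1)).support, i < j) ∧ (∀ n, nF F (x n) = 1) ∧
    ∀ n, (x n).support ∈ F

def NotC0 (F : Set (Finset ℕ)) : Prop :=
  ∀ x, Block F x → ⨆ A ∈ Clo F, ∑' n, nF F (A.indicator (x n)) = ⊤

def Sig (F : Set (Finset ℕ)) : Prop :=
  ∀ x, Block F x → ∃ A ∈ Clo F, ∑' n, ∑' i, ENNReal.ofReal |A.indicator (x n) i| = ⊤

lemma nF_le (F : Set (Finset ℕ)) (y : ℕ → ℝ) (T : Finset ℕ) (h : ∀ i ∉ T, y i = 0) :
    nF F y ≤ .ofReal (∑ k ∈ T, |y k|) :=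
  iSup₂_le fun E _ => ENNReal.ofReal_le_ofReal ((sum_le_sum_of_subset_of_nonneg
    (subset_union_right (s₁ := T)) fun _ _ _ => abs_nonneg _).trans_eq
      (sum_subset subset_union_left fun i _ hi => by rw [h i hi, abs_zero]).symm)

lemma abs_ind (A : Set ℕ) (y : ℕ → ℝ) (i : ℕ) : |A.indicator y i| ≤ |y i| :=
  norm_indicator_le_norm_self y i

lemma nF_eq {F : Set (Finset ℕ)} (y : ℕ →₀ ℝ) (h : y.support ∈ F) :
    nF F y = .ofReal (∑ k ∈ y.support, |y k|) :=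
  (nF_le F y _ fun _ => Finsupp.notMem_support_iff.1).antisymm (le_iSup₂_of_le _ h le_rfl)

noncomputable def w (x : ℕ → ℕ →₀ ℝ) (A : Set ℕ) (n : ℕ) : ℝ :=
  ∑ i ∈ (x n).support, |A.indicator (x n) i|

lemma w0 (x : ℕ → ℕ →₀ ℝ) (A : Set ℕ) (n : ℕ) : 0 ≤ w x A n := sum_nonneg fun _ _ => abs_nonneg _

lemma ind0 {y : ℕ →₀ ℝ} (A : Set ℕ) {i : ℕ} (h : i ∉ y.support) : A.indicator y i = 0 :=
  Set.indicator_apply_eq_zero.2 fun _ => Finsupp.notMem_support_iff.1 h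

lemma wT (x : ℕ → ℕ →₀ ℝ) (A : Set ℕ) (n : ℕ) {T : Finset ℕ} (h : (x n).support ⊆ T) :
    ∑ i ∈ T, |A.indicator (x n) i| = w x A n :=
  (sum_subset h fun i _ hi => by rw [ind0 A hi, abs_zero]).symm

lemma one {F : Set (Finset ℕ)} {x : ℕ → ℕ →₀ ℝ} (h : Block F x) (n : ℕ) :
    ∑ k ∈ (x n).support, |x n k| = 1 :=
  ENNReal.ofReal_eq_one.1 ((nF_eq _ (h.2.2 n)).symm.trans (h.2.1 n))

lemma ord {F : Set (Finset ℕ)} {x : ℕ → ℕ →₀ ℝ} (h : Block F x) {n m : ℕ} (hm : n + 1 ≤ m) :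
    ∀ i ∈ (x n).support, ∀ j ∈ (x m).support, i < j := by
  induction m, hm using Nat.le_induction with
  | base => exact h.1 n
  | succ m _ ih =>
    obtain ⟨l, hl⟩ := nonempty_of_sum_ne_zero ((one h m).trans_ne one_ne_zero)
    exact fun i hi j hj => (ih i hi l hl).trans (h.1 m l hl j hj)

lemma tele (P : ℕ → ℕ) (h : ∀ k, P k ≤ P (k + 1)) (h0 : P 0 = 0) (f : ℕ → ℝ) (N : ℕ) :
    ∑ k ∈ range N, ∑ n ∈ Ico (P k) (P (k + 1)), f n = ∑ n ∈ range (P N), f n := by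
  induction N with
  | zero => simp [h0]
  | succ N ih => rw [sum_range_succ, ih, sum_range_add_sum_Ico _ (h N)]

lemma L0 {F : Set (Finset ℕ)} (h : NotC0 F) {x : ℕ → ℕ →₀ ℝ} (hx : Block F x) (a : ℕ → ℝ) (M : ℝ)
    (a0 : ∀ n, 0 ≤ a n) (hM : ∀ A ∈ Clo F, ∀ N, ∑ n ∈ range N, a n * w x A n ≤ M) (δ : ℝ)
    (d0 : 0 < δ) : ∃ p, ∀ q, ∀ A ∈ Clo F, ∑ n ∈ Ico p q, a n * w x A n < δ := by
  classical
  by_contra hn
  push Not at hn
  choose q A hA hq using hn
  have qp : ∀ p, p ≤ q p := fun p => by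
    by_contra hp
    have := hq p
    rw [Ico_eq_empty_of_le (not_le.1 hp).le, sum_empty] at this
    linarith
  set P : ℕ → ℕ := fun k => Nat.rec 0 (fun _ => q) k
  set J : ℕ → Finset ℕ := fun k => Ico (P k) (P (k + 1))
  set c : ℕ → ℝ := fun k => ∑ n ∈ J k, a n * w x (A (P k)) n
  have c0 : ∀ k, δ ≤ c k := fun k => hq _
  set T : ℕ → Finset ℕ := fun k => (J k).biUnion fun n => (x n).support
  set y : ℕ → ℕ →₀ ℝ := fun k => Finsupp.onFinset (T k)
    (fun i => ∑ n ∈ J k, a n / c k * |(A (P k)).indicator (x n) i|) fun i hi => by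
      obtain ⟨n, h1, h2⟩ := exists_ne_zero_of_sum_ne_zero hi
      exact mem_biUnion.2 ⟨n, h1, by_contra fun h3 => h2 (by rw [ind0 _ h3]; simp)⟩
  have yT : ∀ k, (y k).support ⊆ T k := fun k => Finsupp.support_onFinset_subset
  have yb : ∀ k i, y k i = ∑ n ∈ J k, a n / c k * |(A (P k)).indicator (x n) i| := fun _ _ => rfl
  have ya : ∀ k i, |y k i| = ∑ n ∈ J k, a n / c k * |(A (P k)).indicator (x n) i| := fun k i => by
    rw [yb]
    exact abs_of_nonneg (sum_nonneg fun n _ =>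
      mul_nonneg (div_nonneg (a0 n) (d0.le.trans (c0 k))) (abs_nonneg _))
  have sT : ∀ k (B : Set ℕ) (b : ℕ → ℝ), ∑ i ∈ T k, ∑ n ∈ J k, b n * |B.indicator (x n) i| =
      ∑ n ∈ J k, b n * w x B n := fun k B b => by
    rw [sum_comm]
    exact sum_congr rfl fun n hn => by
      rw [← mul_sum, wT x B n (subset_biUnion_of_mem (fun n => (x n).support) hn)]
  have yF : ∀ k, (y k).support ∈ F := fun k => hA (P k) _ fun i hi => by_contra fun h3 =>
    Finsupp.mem_support_iff.1 hi ((yb k i).trans (sum_eq_zero fun n _ => by simp [h3]))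
  have := h y ⟨fun k i hi j hj => ?_, fun k => ?_, yF⟩
  · refine absurd this (ne_top_of_le_ne_top (ENNReal.ofReal_ne_top (r := M / δ)) (iSup₂_le
      fun B hB => ENNReal.tsum_le_of_sum_range_le fun N => ?_))
    have b1 : ∀ k, nF F (B.indicator (y k)) ≤ .ofReal (∑ n ∈ J k, a n / δ * w x B n) := fun k => by
      refine (nF_le F _ (T k) fun i hi => ind0 B fun h => hi (yT k h)).trans
        (ENNReal.ofReal_le_ofReal ?_)
      rw [← sT]
      refine sum_le_sum fun i _ => ?_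
      by_cases hi : i ∈ B
      · simp only [Set.indicator_of_mem hi, ya]
        exact sum_le_sum fun n _ => mul_le_mul (div_le_div_of_nonneg_left (a0 n) d0 (c0 k))
          (abs_ind _ _ _) (abs_nonneg _) (div_nonneg (a0 n) d0.le)
      · simp [hi]
    refine (sum_le_sum fun k _ => b1 k).trans ?_
    rw [← ENNReal.ofReal_sum_of_nonneg fun k _ => sum_nonneg fun n _ =>
      mul_nonneg (div_nonneg (a0 n) d0.le) (w0 x B n)]
    refine ENNReal.ofReal_le_ofReal (le_trans (le_of_eq ?_)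
      (div_le_div_of_nonneg_right (hM B hB (P N)) d0.le))
    simp only [sum_div, ← div_mul_eq_mul_div]
    exact tele P (fun k => qp (P k)) rfl _ N
  · obtain ⟨n, h1, h2⟩ := mem_biUnion.1 (yT k hi)
    obtain ⟨m, h3, h4⟩ := mem_biUnion.1 (yT (k + 1) hj)
    exact ord hx ((mem_Ico.1 h1).2.trans_le (mem_Ico.1 h3).1) i h2 j h4
  · rw [nF_eq _ (yF k), sum_subset (yT k) fun i _ hi => by
      rw [Finsupp.notMem_support_iff.1 hi, abs_zero]]
    simp only [ya, sT]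
    simp only [div_mul_eq_mul_div, ← sum_div]
    rw [div_self (d0.trans_le (c0 k)).ne', ENNReal.ofReal_one]

theorem result (F : Set (Finset ℕ)) (hF : Hered F) (h : NotC0 F) : Sig F := fun x hx => by
  by_contra hn
  push Not at hn
  refine H26.Fonf.fonf (K := Clo F) (w0 x) 
    (fun A n => (sum_le_sum fun i _ => abs_ind A _ i).trans (one hx n).le)
    (fun n => ⟨(x n).support, fun E hE => hF.1 _ (hx.2.2 n) E (coe_subset.1 hE),
      (sum_congr rfl fun i hi => by rw [Set.indicator_of_mem (mem_coe.2 hi)]).trans (one hx n)⟩)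
    (fun A hA => ⟨{i | ∀ᶠ j in hyperfilter ℕ, i ∈ A j}, fun E hE => ?_, fun n => ?_⟩)
    (L0 h hx) fun A hA => ?_
  · obtain ⟨j, hj⟩ := ((eventually_all_finset E).2 fun i hi => hE hi).exists
    exact hA j E hj
  · refine ((eventually_all_finset (x n).support).2 fun i _ => (?_ : ∀ᶠ j in hyperfilter ℕ,
      |{i | ∀ᶠ j in hyperfilter ℕ, i ∈ A j}.indicator (x n) i| =
        |(A j).indicator (x n) i|)).mono fun j hj => sum_congr rfl hj
    by_cases hi : ∀ᶠ j in hyperfilter ℕ, i ∈ A j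
    · exact hi.mono fun j hj => by simp only [Set.indicator, Set.mem_ofPred, hi, hj]
    · exact (Ultrafilter.eventually_not.2 hi).mono fun j hj => by
        simp only [Set.indicator, Set.mem_ofPred, hi, hj]
  · refine (ENNReal.summable_toReal (hn A hA)).congr fun n => ?_
    rw [tsum_eq_sum (s := (x n).support) fun i hi => by simp [ind0 A hi],
      ← ENNReal.ofReal_sum_of_nonneg fun _ _ => abs_nonneg _]
    exact ENNReal.toReal_ofReal (w0 x A n)

end Pool.Agent.Results.MP_441f99_an.Proof
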